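import Pool.Agent.Lib_helper68.MC.Defs
import Pool.Agent.Lib_helper57.HE.SH

/-! Project MC (MP_b08f5f_an): block SR, homogeneity. -/

set_option autoImplicit false

namespace Pool.Agent.Lib_helper68.MC

open MeasureTheory Filter Topology Set
open scoped ComplexConjugate ENNReal NNReal
open Pool.Agent.Lib_helper25.PV (Conf vel Motion centre inertia NC VFlow)
open Pool.Agent.Lib_helper12.HE (ham rad nrm Gam sig shell turn one LimAvg)

noncomputable section

/-- the map that multiplies the centre by `1 + c` -/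
def SR_map (N : ℕ) (c : ℝ) : Conf N →ₗ[ℝ] Conf N where
  toFun z := fun i => z i + (c : ℂ) * centre z
  map_add' x y := by
    funext i
    simp only [Pi.add_apply, centre, Finset.sum_add_distrib]
    ring
  map_smul' r x := by
    funext i
    simp only [Pi.smul_apply, centre, RingHom.id_apply, Complex.real_smul, ← Finset.mul_sum]
    ring

theorem SR_centre {N : ℕ} (hN : 1 ≤ N) (c : ℝ) (z : Conf N) :
    centre (SR_map N c z) = (1 + c : ℂ) * centre z := by
  have hN' : (N : ℂ) ≠ 0 := by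
    have : N ≠ 0 := by omega
    exact_mod_cast this
  change (∑ i, (z i + (c : ℂ) * centre z)) / N = _
  rw [Finset.sum_add_distrib, Finset.sum_const, Finset.card_univ, Fintype.card_fin, nsmul_eq_mul,
    add_div, mul_div_cancel_left₀ _ hN']
  change centre z + _ = _
  ring

theorem SR_sub {N : ℕ} (hN : 1 ≤ N) (c : ℝ) (z : Conf N) (i : Fin N) :
    SR_map N c z i - centre (SR_map N c z) = z i - centre z := by
  rw [SR_centre hN]
  change z i + (c : ℂ) * centre z - _ = _
  ring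

theorem SR_rad {N : ℕ} (hN : 1 ≤ N) (c : ℝ) (z : Conf N) : rad (SR_map N c z) = rad z := by
  unfold rad
  simp only [SR_sub hN]

theorem SR_nrm {N : ℕ} (hN : 1 ≤ N) (c : ℝ) (z : Conf N) : nrm (SR_map N c z) = nrm z := by
  funext i
  simp only [nrm, SR_rad hN, SR_sub hN]

theorem SR_comp {N : ℕ} (hN : 1 ≤ N) {c d : ℝ} (h : (1 + d) * (1 + c) = 1) (z : Conf N) :
    SR_map N d (SR_map N c z) = z := by
  funext i
  change SR_map N c z i + (d : ℂ) * centre (SR_map N c z) = z i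
  rw [SR_centre hN]
  change z i + (c : ℂ) * centre z + _ = _
  have h1 : ((1 + d) * (1 + c) : ℂ) = 1 := by exact_mod_cast h
  linear_combination (centre z) * h1

theorem SR_det {N : ℕ} (hN : 1 ≤ N) {c : ℝ} (h : 0 < 1 + c) :
    LinearMap.det (SR_map N c) ≠ 0 := by
  set d : ℝ := (1 + c)⁻¹ - 1 with hd
  have h1 : (1 + d) * (1 + c) = 1 := by
    rw [hd]
    field_simp
    ring
  have h2 : (1 + c) * (1 + d) = 1 := by rw [mul_comm]; exact h1
  let e : Conf N ≃ₗ[ℝ] Conf N := LinearEquiv.ofLinear (SR_map N c) (SR_map N d)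
    (LinearMap.ext fun z => SR_comp hN h2 z) (LinearMap.ext fun z => SR_comp hN h1 z)
  exact (LinearEquiv.isUnit_det' e).ne_zero

theorem SR_region (N : ℕ) (hN : 2 ≤ N) (η : ℝ) (hη : 0 < η) : ∃ κ : ℝ≥0∞, κ ≠ 0 ∧ κ ≠ ⊤ ∧
    ∀ B : Set (Conf N), volume {z | z ∈ Reg N η ∧ nrm z ∈ B} = κ * sig N B := by
  obtain ⟨κ, h0, h1, h2⟩ := Pool.Agent.Lib_helper12.HE.SH_shell N hN η hη
  set c : ℝ := η⁻¹ - 1 with hc
  have hc0 : 0 < 1 + c := by
    rw [hc]
    have := inv_pos.2 hη
    linarith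
  have hdet := SR_det (N := N) (by omega) hc0
  refine ⟨ENNReal.ofReal |(LinearMap.det (SR_map N c))⁻¹| * κ, ?_, ?_, fun B => ?_⟩
  · refine mul_ne_zero ?_ h0
    rw [Ne, ENNReal.ofReal_eq_zero, not_le]
    exact abs_pos.2 (inv_ne_zero hdet)
  · exact ENNReal.mul_ne_top ENNReal.ofReal_ne_top h1
  · have h3 : {z : Conf N | z ∈ Reg N η ∧ nrm z ∈ B} =
        SR_map N c ⁻¹' {z | z ∈ shell N η ∧ nrm z ∈ B} := by
      ext z
      simp only [mem_ofPred_eq, mem_preimage, Reg, shell, SR_centre (by omega : 1 ≤ N),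
        SR_rad (by omega : 1 ≤ N), SR_nrm (by omega : 1 ≤ N)]
      have h4 : ‖(1 + (c : ℂ)) * centre z‖ = η⁻¹ * ‖centre z‖ := by
        have h5 : (1 + (c : ℂ)) = ((η⁻¹ : ℝ) : ℂ) := by
          rw [hc]
          push_cast
          ring
        rw [h5, norm_mul, Complex.norm_real, Real.norm_of_nonneg (inv_pos.2 hη).le]
      have h6 : ‖centre z‖ ≤ η ↔ ‖(1 + (c : ℂ)) * centre z‖ ≤ 1 := by
        rw [h4, inv_mul_le_iff₀ hη, mul_one]
      rw [h6]
    rw [h3, Measure.addHaar_preimage_linearMap _ hdet, h2, mul_assoc]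

end

end Pool.Agent.Lib_helper68.MC
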