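import Pool.Agent.Lib_helper37.MC.UC
import Pool.Agent.Lib_helper85.MC.DV
import Pool.Agent.Lib_helper51.MC.RE
import Pool.Agent.Lib_helper4.MC.TR
import Pool.Agent.Lib_helper75.MC.TO

/-! Project MC (MP_b08f5f_an): block UL, the local upper bound. -/

set_option autoImplicit false

namespace Pool.Agent.Lib_helper68.MC

open MeasureTheory Filter Topology Set
open scoped ComplexConjugate ENNReal NNReal
open Pool.Agent.Lib_helper25.PV (Conf vel Motion centre inertia NC VFlow)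
open Pool.Agent.Lib_helper12.HE (ham rad nrm Gam sig shell turn one LimAvg)

noncomputable section

theorem UL_wt_int {f : ℂ → ℝ} (hf : Continuous f) (hfc : HasCompactSupport f) {α : ℝ}
    (hα : 0 < α) : Integrable (wt α f) := by
  obtain ⟨M, hM⟩ := hfc.exists_bound_of_continuous hf
  have h0 := (GaussianFourier.integrable_cexp_neg_mul_sq_norm_add (V := ℂ) (b := (α : ℂ))
    (by simpa using hα) 0 0).norm
  have h1 : Integrable (fun x : ℂ => Real.exp M * Real.exp (-(α * ‖x‖ ^ 2))) := by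
    refine Integrable.const_mul (h0.congr (Eventually.of_forall fun x => ?_)) _
    have h2 : (-(α : ℂ) * (‖x‖ : ℂ) ^ 2 + 0 * ((inner ℝ (0 : ℂ) x : ℝ) : ℂ)) =
        ((-(α * ‖x‖ ^ 2) : ℝ) : ℂ) := by
      push_cast
      ring
    simp only [Complex.norm_exp]
    rw [h2, Complex.ofReal_re]
  refine h1.mono' ?_ (Eventually.of_forall fun x => ?_)
  · unfold wt
    exact (by fun_prop : Continuous fun x => Real.exp (f x - α * ‖x‖ ^ 2)).aestronglyMeasurable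
  · unfold wt
    rw [Real.norm_of_nonneg (Real.exp_pos _).le, ← Real.exp_add]
    apply Real.exp_le_exp.2
    have := (le_abs_self (f x)).trans (hM x)
    linarith

theorem UL_Z_pos {f : ℂ → ℝ} (hf : Continuous f) (hfc : HasCompactSupport f) {α : ℝ}
    (hα : 0 < α) : 0 < ∫ y, wt α f y := by
  refine (integral_pos_iff_support_of_nonneg (f := wt α f) (fun x => (Real.exp_pos _).le)
    (UL_wt_int hf hfc hα)).2 ?_
  have h : Function.support (wt α f) = univ := by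
    ext x
    simp [wt, Real.exp_ne_zero]
  rw [h]
  simp

theorem UL_nbhd (μ : ProbabilityMeasure ℂ) {f : ℂ → ℝ} (hf : Continuous f)
    (hfc : HasCompactSupport f) {κ : ℝ} (hκ : 0 < κ) :
    ∃ U : Set (ProbabilityMeasure ℂ), IsOpen U ∧ μ ∈ U ∧ ∀ ν ∈ U,
      |(∫ x, f x ∂(ν : Measure ℂ)) - ∫ x, f x ∂(μ : Measure ℂ)| < κ := by
  obtain ⟨M, hM⟩ := hfc.exists_bound_of_continuous hf
  set F : BoundedContinuousFunction ℂ ℝ :=
    BoundedContinuousFunction.ofNormedAddCommGroup f hf M hM with hF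
  have hc : Continuous fun ν : ProbabilityMeasure ℂ => ∫ x, F x ∂(ν : Measure ℂ) :=
    ProbabilityMeasure.continuous_integral_boundedContinuousFunction F
  refine ⟨{ν | |(∫ x, f x ∂(ν : Measure ℂ)) - ∫ x, f x ∂(μ : Measure ℂ)| < κ}, ?_, ?_,
    fun ν hν => hν⟩
  · exact isOpen_lt (hc.sub continuous_const).abs continuous_const
  · simp only [mem_ofPred_eq, sub_self, abs_zero]
    exact hκ

theorem UL_div_small (k : ℝ) {κ : ℝ} (hκ : 0 < κ) : ∀ᶠ N : ℕ in atTop, |k / N| ≤ κ := by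
  have h := (tendsto_const_div_atTop_nhds_zero_nat k).abs
  rw [abs_zero] at h
  exact (h.eventually (Iio_mem_nhds hκ)).mono fun N hN => le_of_lt hN

theorem UL_inj_of_nrm {N : ℕ} {z : Conf N} (h : nrm z ∈ Gam N) : Function.Injective z := by
  intro i j hij
  apply h.1
  simp only [nrm, hij]

theorem UL_near_sum_nonneg {N : ℕ} {z : Conf N} (hz : Function.Injective z) {r : ℝ}
    (hr : 0 < r) :
    0 ≤ (∑ i, ∑ j ∈ Finset.univ.erase i, near r (z i - z j)) / (N : ℝ) ^ 2 := by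
  refine div_nonneg (Finset.sum_nonneg fun i _ => Finset.sum_nonneg fun j hj => ?_)
    (by positivity)
  refine RE_near_nonneg hr ?_
  intro h
  exact (Finset.ne_of_mem_erase hj) (hz (sub_eq_zero.1 h)).symm

/-- Chernoff's bound near `μ` -/
theorem UL_step {a b : ℝ} {μ : ProbabilityMeasure ℂ} {f : ℂ → ℝ} (hf : Continuous f)
    (hfc : HasCompactSupport f) {α s d σ : ℝ} (hα : 0 < α) (hs0 : 0 ≤ s)
    (hs : s < 8 * Real.pi)
    (hlog : Real.log (∫ y, wt α f y) - ∫ x, f x ∂(μ : Measure ℂ) + α - s * d < σ)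
    (H : ∀ r : ℝ, 0 < r → r ≤ 1 → ∀ κ : ℝ, 0 < κ → ∃ U : Set (ProbabilityMeasure ℂ),
      IsOpen U ∧ μ ∈ U ∧ ∃ η₀ > 0, ∀ᶠ N : ℕ in atTop, ∀ z : Conf N, z ∈ Reg N η₀ →
        nrm z ∈ Win N a b → emp (nrm z) ∈ U → s * (d - κ) ≤
          s * ((∑ i, ∑ j ∈ Finset.univ.erase i, near r (z i - z j)) / (N : ℝ) ^ 2)) :
    ∃ U : Set (ProbabilityMeasure ℂ), IsOpen U ∧ μ ∈ U ∧ ∃ η > 0, ∀ᶠ N : ℕ in atTop,
      volume {z : Conf N | z ∈ Reg N η ∧ nrm z ∈ Win N a b ∧ emp (nrm z) ∈ U} ≤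
        ENNReal.ofReal (Real.exp (N * σ)) := by
  set Z := ∫ y, wt α f y with hZ
  have hZ0 : 0 < Z := UL_Z_pos hf hfc hα
  set I := ∫ x, f x ∂(μ : Measure ℂ) with hI
  set g := σ - (Real.log Z - I + α - s * d) with hg
  have hg0 : 0 < g := by rw [hg]; linarith
  set κ := g / 40 with hκ
  have hκ0 : 0 < κ := by rw [hκ]; positivity
  obtain ⟨C, hC, hUC⟩ := UC_main hf hfc hα hs0 hs
  obtain ⟨r, ⟨hr1, hr2⟩, hr3⟩ : ∃ r : ℝ, r ∈ Ioc 0 1 ∧ Real.log (Z + C * r ^ 2) ≤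
      Real.log Z + κ := by
    have hcont : ContinuousAt (fun r : ℝ => Real.log (Z + C * r ^ 2)) 0 := by
      refine ContinuousAt.log (by fun_prop) ?_
      simp only [ne_eq, OfNat.ofNat_ne_zero, not_false_eq_true, zero_pow, mul_zero, add_zero]
      exact hZ0.ne'
    have h1 : ∀ᶠ r : ℝ in 𝓝 0, Real.log (Z + C * r ^ 2) < Real.log Z + κ := by
      refine hcont.eventually (Iio_mem_nhds ?_)
      simp only [ne_eq, OfNat.ofNat_ne_zero, not_false_eq_true, zero_pow, mul_zero, add_zero]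
      linarith
    have h2 : ∀ᶠ r : ℝ in 𝓝[>] 0, Real.log (Z + C * r ^ 2) < Real.log Z + κ :=
      h1.filter_mono nhdsWithin_le_nhds
    have h3 : ∀ᶠ r : ℝ in 𝓝[>] 0, r ∈ Ioc (0 : ℝ) 1 := Ioc_mem_nhdsGT one_pos
    obtain ⟨r, h4, h5⟩ := (h2.and h3).exists
    exact ⟨r, h5, h4.le⟩
  obtain ⟨U₁, hU₁, hμ₁, η₁, hη₁, hN₁⟩ := H r hr1 hr2 κ hκ0
  obtain ⟨U₂, hU₂, hμ₂, hb₂⟩ := UL_nbhd μ hf hfc hκ0
  obtain ⟨η₂, hη₂, ht₂⟩ := TR_test hf hfc hκ0
  set η := min (min η₁ η₂) (min 1 (κ / (4 * α))) with hη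
  have hη0 : 0 < η := by
    rw [hη]
    exact lt_min (lt_min hη₁ hη₂) (lt_min one_pos (by positivity))
  have hηa : η ≤ η₁ := (min_le_left _ _).trans (min_le_left _ _)
  have hηb : η ≤ η₂ := (min_le_left _ _).trans (min_le_right _ _)
  have hηc : η ≤ 1 := (min_le_right _ _).trans (min_le_left _ _)
  have hηd : η ≤ κ / (4 * α) := (min_le_right _ _).trans (min_le_right _ _)
  refine ⟨U₁ ∩ U₂, hU₁.inter hU₂, ⟨hμ₁, hμ₂⟩, η, hη0, ?_⟩
  filter_upwards [hN₁, eventually_ge_atTop 2] with N h1 hN2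
  refine (measure_mono ?_).trans
    ((hUC r hr1 hr2 N hN2 (1 + κ / α) (I - 2 * κ) (d - κ)).trans ?_)
  · rintro z ⟨hz, hzW, hzU⟩
    refine ⟨?_, ?_, h1 z (TR_mono hηa hz) hzW hzU.1⟩
    · refine (TR_mom (by omega) hη0 hz).trans ?_
      have e1 : η * (4 * α) ≤ κ := by
        rwa [le_div_iff₀ (by positivity)] at hηd
      have e2 : 4 * η ≤ κ / α := by
        rw [le_div_iff₀ hα]
        linarith
      nlinarith
    · have e1 := ht₂ N (by omega) z (TR_mono hηb hz) hzW.1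
      have e2 := hb₂ _ hzU.2
      rw [TO_integral (by omega)] at e2
      have e3 := (abs_le.1 e1).1
      have e4 := (abs_lt.1 e2).1
      linarith
  · apply ENNReal.ofReal_le_ofReal
    apply Real.exp_le_exp.2
    apply mul_le_mul_of_nonneg_left _ (Nat.cast_nonneg N)
    have e1 : α * (1 + κ / α) = α + κ := by
      field_simp
    have e2 : s * κ ≤ 26 * κ := by
      have := Real.pi_lt_d2
      gcongr
      linarith
    have e3 : g = 40 * κ := by rw [hκ]; ring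
    rw [e1]
    have e4 : s * (d - κ) = s * d - s * κ := by ring
    rw [e4]
    linarith

/-- the near part is large when the energy of the density is below the window -/
theorem UL_near {a b : ℝ} {μ : ProbabilityMeasure ℂ} (hμ : μ ∈ KK) {ρ : ℂ → ℝ} (hρ : Dens ρ)
    (hw : (μ : Measure ℂ) = wd ρ) {s : ℝ} (hs0 : 0 ≤ s) :
    ∀ r : ℝ, 0 < r → r ≤ 1 → ∀ κ : ℝ, 0 < κ → ∃ U : Set (ProbabilityMeasure ℂ),
      IsOpen U ∧ μ ∈ U ∧ ∃ η₀ > 0, ∀ᶠ N : ℕ in atTop, ∀ z : Conf N, z ∈ Reg N η₀ →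
        nrm z ∈ Win N a b → emp (nrm z) ∈ U → s * (max (a - En ρ ρ) 0 - κ) ≤
          s * ((∑ i, ∑ j ∈ Finset.univ.erase i, near r (z i - z j)) / (N : ℝ) ^ 2) := by
  intro r hr _ κ hκ
  have hκ' : 0 < κ / 5 := by positivity
  obtain ⟨U, hU, hμU, hUc⟩ := RE_cont hr hμ hκ'
  obtain ⟨η₁, hη₁, hk⟩ := TR_ker hr hκ'
  have hle := RE_le hρ hr
  refine ⟨U, hU, hμU, min η₁ (κ / 5), lt_min hη₁ hκ', ?_⟩
  filter_upwards [UL_div_small (ker r 0) hκ', eventually_ge_atTop 1] with N hN1 hN2 z hz hzW hzU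
  refine mul_le_mul_of_nonneg_left ?_ hs0
  have hη0 : 0 < min η₁ (κ / 5) := lt_min hη₁ hκ'
  have e1 := hUc _ hzU (TO_emp hN2 hzW.1)
  rw [RE_emp hN2, hw] at e1
  have e2 := hk N hN2 z (TR_mono (min_le_left _ _) hz) hzW.1
  have e3 := (TR_ham hN2 hη0 hz hzW.1).1
  have e4 := RE_ham hN2 z r hr
  have e5 := UL_near_sum_nonneg (UL_inj_of_nrm hzW.1) hr
  have e6 := hzW.2.1
  have e7 : min η₁ (κ / 5) ≤ κ / 5 := min_le_right _ _
  have e8 := (abs_le.1 e1).2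
  have e9 := (abs_le.1 e2).2
  have e10 := (abs_le.1 hN1).1
  have e11 := (abs_le.1 hN1).2
  rcases max_cases (a - En ρ ρ) 0 with ⟨h1, _⟩ | ⟨h1, _⟩
  · rw [h1]
    linarith
  · rw [h1]
    linarith

/-- a density above the window -/
theorem UL_empty {a b : ℝ} {μ : ProbabilityMeasure ℂ} (hμ : μ ∈ KK) {ρ : ℂ → ℝ} (hρ : Dens ρ)
    (hw : (μ : Measure ℂ) = wd ρ) (hb : b < En ρ ρ) (σ : ℝ) :
    ∃ U : Set (ProbabilityMeasure ℂ), IsOpen U ∧ μ ∈ U ∧ ∃ η > 0, ∀ᶠ N : ℕ in atTop,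
      volume {z : Conf N | z ∈ Reg N η ∧ nrm z ∈ Win N a b ∧ emp (nrm z) ∈ U} ≤
        ENNReal.ofReal (Real.exp (N * σ)) := by
  have hκ : 0 < (En ρ ρ - b) / 4 := by linarith
  obtain ⟨r, hr, _, hlim⟩ := RE_lim hρ hκ
  obtain ⟨U, hU, hμU, hUc⟩ := RE_cont hr hμ hκ
  refine ⟨U, hU, hμU, 1, one_pos, ?_⟩
  filter_upwards [UL_div_small (ker r 0) hκ, eventually_ge_atTop 1] with N hN1 hN2
  have hempty : {z : Conf N | z ∈ Reg N 1 ∧ nrm z ∈ Win N a b ∧ emp (nrm z) ∈ U} = ∅ := by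
    rw [eq_empty_iff_forall_notMem]
    rintro z ⟨_, hzW, hzU⟩
    have e1 := hUc _ hzU (TO_emp hN2 hzW.1)
    rw [RE_emp hN2, hw] at e1
    have e4 := RE_ham hN2 (nrm z) r hr
    have e5 := UL_near_sum_nonneg hzW.1.1 hr
    have e6 := hzW.2.2
    have e8 := (abs_le.1 e1).1
    have e10 := (abs_le.1 hN1).2
    linarith
  rw [hempty]
  simp

theorem UL_main {a b : ℝ} {μ : ProbabilityMeasure ℂ} (hμ : μ ∈ KK) {σ : ℝ}
    (h : (∃ ρ, Dens ρ ∧ (μ : Measure ℂ) = wd ρ ∧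
        (En ρ ρ ≤ b → Sent ρ - 8 * Real.pi * max (a - En ρ ρ) 0 < σ)) ∨
      ¬ ∃ ρ, Dens ρ ∧ (μ : Measure ℂ) = wd ρ) :
    ∃ U : Set (ProbabilityMeasure ℂ), IsOpen U ∧ μ ∈ U ∧ ∃ η > 0, ∀ᶠ N : ℕ in atTop,
      volume {z : Conf N | z ∈ Reg N η ∧ nrm z ∈ Win N a b ∧ emp (nrm z) ∈ U} ≤
        ENNReal.ofReal (Real.exp (N * σ)) := by
  rcases h with ⟨ρ, hρ, hw, hσ⟩ | hno
  · rcases lt_or_ge b (En ρ ρ) with hb | hb
    · exact UL_empty hμ hρ hw hb σ
    · have h1 := hσ hb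
      set d := max (a - En ρ ρ) 0 with hd
      have hd0 : 0 ≤ d := le_max_right _ _
      have hpi := Real.pi_pos
      -- the slope
      obtain ⟨s, hs0, hs, hs2⟩ : ∃ s : ℝ, 0 ≤ s ∧ s < 8 * Real.pi ∧ Sent ρ - s * d < σ := by
        set x := min 1 ((σ - (Sent ρ - 8 * Real.pi * d)) / (2 * (d + 1))) with hx
        have hx0 : 0 < x := lt_min one_pos (by apply div_pos <;> linarith)
        have hx1 : x ≤ 1 := min_le_left _ _
        have hx2 : x * (2 * (d + 1)) ≤ σ - (Sent ρ - 8 * Real.pi * d) := by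
          have : x ≤ (σ - (Sent ρ - 8 * Real.pi * d)) / (2 * (d + 1)) := min_le_right _ _
          rwa [le_div_iff₀ (by positivity)] at this
        refine ⟨8 * Real.pi - x, ?_, by linarith, ?_⟩
        · have := Real.pi_gt_three
          linarith
        · nlinarith
      obtain ⟨α, hα, f, hf, hfc, hlog⟩ := DV_main (μ : Measure ℂ) hμ (σ + s * d)
        (Or.inl ⟨ρ, hρ, hw, by linarith⟩)
      exact UL_step hf hfc hα hs0 hs (d := d) (by linarith) (UL_near hμ hρ hw hs0)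
  · obtain ⟨α, hα, f, hf, hfc, hlog⟩ := DV_main (μ : Measure ℂ) hμ σ (Or.inr hno)
    refine UL_step hf hfc hα le_rfl (by have := Real.pi_pos; linarith) (d := 0)
      (by linarith) fun r _ _ κ _ => ⟨univ, isOpen_univ, mem_univ _, 1, one_pos, ?_⟩
    filter_upwards with N z _ _ _
    simp

end

end Pool.Agent.Lib_helper68.MC
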